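import Mathlib
import Pool.Agent.H382R3.KD.Fin1

set_option autoImplicit false

open MeasureTheory Filter Topology Set

/-!
Question Q2 (sufficiency of the Kesten condition), answered in full: yes.

For every `D ∈ (0,1)`, every irrational `γ` and every `x₀`, if `D = jγ + l` for integers `j, l`
(the Kesten condition) then the projected staircase satisfies the diffraction condition.
More is proved: the diffraction measure is pure point (it gives no mass to the set of non-atoms),
and every atom is of the form `(mγ + n) / √((1-D)² + D²)` with integers `m, n`.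
-/

namespace Pool.Agent.W2helper21.Unused.KestenPurePoint

open Pool.Agent.H382R3.KD

/-- A countable sum of weighted point masses gives mass zero to the set of its non-atoms, and its
atoms are among the given points. -/
lemma pure_point_sum {ι : Type*} [Countable ι] (w : ι → ENNReal) (p : ι → ℝ)
    (hc : {s : ℝ | (Measure.sum fun i => w i • Measure.dirac (p i)) {s} ≠ 0}.Countable) :
    (Measure.sum fun i => w i • Measure.dirac (p i))
      {s : ℝ | (Measure.sum fun i => w i • Measure.dirac (p i)) {s} = 0} = 0 ∧
    ∀ s : ℝ, (Measure.sum fun i => w i • Measure.dirac (p i)) {s} ≠ 0 → ∃ i, p i = s := by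
  set μ := Measure.sum fun i => w i • Measure.dirac (p i) with hμ
  have hAm : MeasurableSet {s : ℝ | μ {s} = 0} := by
    have : {s : ℝ | μ {s} = 0} = {s : ℝ | μ {s} ≠ 0}ᶜ := by
      ext s; simp
    rw [this]
    exact hc.measurableSet.compl
  constructor
  · rw [hμ, Measure.sum_apply _ hAm]
    simp only [Measure.smul_apply, smul_eq_mul, ENNReal.tsum_eq_zero, mul_eq_zero]
    intro i
    by_cases hw : w i = 0
    · left; exact hw
    · right
      rw [Measure.dirac_apply' _ hAm, indicator_of_notMem]
      simp only [mem_setOf_eq]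
      intro h0
      have : w i ≤ μ {p i} := by
        calc w i = (w i • Measure.dirac (p i)) {p i} := by simp
          _ ≤ μ {p i} := Measure.le_sum (fun i => w i • Measure.dirac (p i)) i _
      rw [h0] at this
      exact hw (le_antisymm this (zero_le))
  · intro s hs
    by_contra hne
    push Not at hne
    apply hs
    rw [hμ, Measure.sum_apply _ (measurableSet_singleton s)]
    simp only [Measure.smul_apply, smul_eq_mul, ENNReal.tsum_eq_zero, mul_eq_zero]
    intro i
    right
    rw [Measure.dirac_apply' _ (measurableSet_singleton s), indicator_of_notMem]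
    simpa using hne i

/-- **Q2, sufficiency of the Kesten condition.** Let `0 < D < 1`, let `γ` be irrational, let `x₀`
be real and suppose that `D = jγ + l` for some integers `j, l`. Then the staircase exists and is
unique, its projection satisfies the diffraction condition, and moreover its diffraction measure
`μ` (the Fourier transform of its autocorrelation `η`) is pure point, with countably infinitely many
atoms, all of them in `(ℤγ + ℤ)/√((1-D)² + D²)`. -/
theorem result : ∀ D γ x₀ : ℝ, 0 < D → D < 1 → Irrational γ → Kesten D γ →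
    (∃! p : ℤ → ℤ × ℤ, IsStaircase D γ x₀ p) ∧
    ∀ p : ℤ → ℤ × ℤ, IsStaircase D γ x₀ p →
      DiffractionCondition (proj D '' Set.range p) ∧
      ∃ η μ : Measure ℝ, IsAutocorrelation (proj D '' Set.range p) η ∧ IsFourierTransformOf η μ ∧
        {s : ℝ | μ {s} ≠ 0}.Infinite ∧ {s : ℝ | μ {s} ≠ 0}.Countable ∧
        μ {s : ℝ | μ {s} = 0} = 0 ∧
        ∀ s : ℝ, μ {s} ≠ 0 → ∃ m n : ℤ, s = (m * γ + n) / Real.sqrt ((1 - D) ^ 2 + D ^ 2) := by
  intro D γ x₀ h0 h1 hγ hK
  refine ⟨stair_unique D γ x₀, fun p hp => ⟨sufficiency h0 h1 hγ hK hp, ?_⟩⟩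
  obtain ⟨j, l, hjl⟩ := hK
  have hj : (D : Circ) = j • (γ : Circ) := by
    have h2 : ((l : ℝ) : Circ) = 0 := by
      rw [AddCircle.coe_eq_zero_iff]; exact ⟨l, by simp⟩
    rw [hjl, AddCircle.coe_add, h2, add_zero, ← zsmul_eq_mul]
    simp
  have ha := addOrderOf_irr hγ
  rw [image_eq hp]
  have hft := (kestenData h0 (γ : Circ) j).isFT h0 h1 rfl (kesten_cocycle h0 h1 hj)
  have hau := isAutocorr h0 h1 ha (x₀ : Circ)
  have hcount := countable_atoms hft.1
  have hpp := pure_point_sum (kestenData h0 (γ : Circ) j).wgt
    (fun q : ℤ × ℤ => sp (kestenData h0 (γ : Circ) j).κ (γ : Circ) q) hcount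
  refine ⟨eta D γ, (kestenData h0 (γ : Circ) j).mu, hau, hft,
    infinite_atoms_sum hft.1 (not_finite_of_atom hau.1 (eta_zero h0 _) hft), hcount, hpp.1, ?_⟩
  intro s hs
  obtain ⟨q, hq⟩ := hpp.2 s hs
  refine ⟨q.1, q.2 - ⌊(q.1 : ℝ) * γ⌋, ?_⟩
  rw [← hq]
  have hfr : cc (γ : Circ) q.1 = Int.fract ((q.1 : ℝ) * γ) := by
    unfold cc
    rw [← fr_coe]
    congr 1
    rw [← zsmul_eq_mul]
    simp
  show (q.2 + cc (γ : Circ) q.1) / kap D = _
  rw [hfr]
  unfold kap
  congr 1
  have := Int.floor_add_fract ((q.1 : ℝ) * γ)
  push_cast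
  linarith

end Pool.Agent.W2helper21.Unused.KestenPurePoint
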